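import Pool.Agent.Helper34.PU.Goals

/-!
MP_8060f4_co, packet KX : few frames correlate with the labels.
-/

set_option autoImplicit false

open Finset Function
open scoped Classical

namespace Pool.Agent.Helper29.PU

open Pool.Agent.Helper34.PU

theorem avg_unit {α : Type} (A : Finset α) (f : α → ℝ) (hf : ∀ i, 0 ≤ f i ∧ f i ≤ 1) :
    0 ≤ avg A f ∧ avg A f ≤ 1 := by
  unfold avg
  constructor
  · exact div_nonneg (Finset.sum_nonneg (fun i _ => (hf i).1)) (by positivity)
  · apply div_le_one_of_le₀ _ (by positivity)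
    calc ∑ i ∈ A, f i ≤ ∑ i ∈ A, (1 : ℝ) := Finset.sum_le_sum (fun i _ => (hf i).2)
      _ = A.card := by simp

theorem sum_sub_avg {α : Type} (A : Finset α) (f : α → ℝ) :
    ∑ i ∈ A, (f i - avg A f) = 0 := by
  rw [Finset.sum_sub_distrib, Finset.sum_const, nsmul_eq_mul]
  unfold avg
  rcases Nat.eq_zero_or_pos A.card with h | h
  · have : A = ∅ := Finset.card_eq_zero.1 h
    subst this
    simp
  · have h' : (A.card : ℝ) ≠ 0 := by positivity
    field_simp
    ring

theorem cell_eq {T D N : ℕ} (x : Fin N → Pt T D) (J : Finset (Fin T)) (a : Pt T D) (i : Fin N)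
    (hi : i ∈ cell x J a) : cell x J (x i) = cell x J a := by
  unfold cell at hi ⊢
  rw [Finset.mem_filter] at hi
  ext j
  simp only [Finset.mem_filter, Finset.mem_univ, true_and]
  constructor
  · intro h t ht
    rw [h t ht, hi.2 t ht]
  · intro h t ht
    rw [h t ht, hi.2 t ht]

theorem kx (h : DLStmt) : KXStmt := by
  intro β s k Q L M T D N hM η γ x lab hβk hN hη hγ hηγ hPR Φ hΦ part I q ϑ l' hI h0 h1
  obtain ⟨c0, hc0⟩ : ∃ c0 : Fin k → Fin T, c0 = fun j => Φ 0 ⟨0, hM⟩ j := ⟨_, rfl⟩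
  obtain ⟨A, hA⟩ : ∃ A : Fin M → Finset (Fin T), A = fun l => (univ \ I).image (fun j => Φ 1 l j) :=
    ⟨_, rfl⟩
  obtain ⟨d, hd⟩ : ∃ d : Fin N → ℝ, d = ind s (fun q U => lab q (U.image c0)) q I ϑ := ⟨_, rfl⟩
  have hU : ∀ (l : Fin M) (U : Finset (Fin k)), U ⊆ I →
      U.image (frm hM Φ part l l') = U.image c0 := by
    intro l U hUI
    apply Finset.image_congr
    intro j hj
    have h2 := h0 j (hUI hj)
    simp [frm, h2, hc0]
  have hind : ∀ l, ind s (fun q U => lab q (U.image (frm hM Φ part l l'))) q I ϑ = d := by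
    intro l
    funext i
    rw [hd]
    unfold ind
    refine if_congr ?_ rfl rfl
    constructor
    · intro H U hU1 hU2
      rw [← H U hU1 hU2]
      simp only [hU l U hU1]
    · intro H U hU1 hU2
      rw [← H U hU1 hU2]
      simp only [hU l U hU1]
  have hI' : ∀ l, I.image (frm hM Φ part l l') = I.image c0 := fun l => hU l I (subset_refl I)
  have huniv : ∀ l, univ.image (frm hM Φ part l l') = I.image c0 ∪ A l := by
    intro l
    rw [← hI' l, hA]
    ext t
    simp only [Finset.mem_image, Finset.mem_univ, true_and, Finset.mem_union, Finset.mem_sdiff]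
    constructor
    · rintro ⟨j, rfl⟩
      by_cases hj : j ∈ I
      · exact Or.inl ⟨j, hj, rfl⟩
      · refine Or.inr ⟨j, hj, ?_⟩
        have h2 := h1 j hj
        simp [frm, h2]
    · rintro (⟨j, hj, rfl⟩ | ⟨j, hj, rfl⟩)
      · exact ⟨j, rfl⟩
      · refine ⟨j, ?_⟩
        have h2 := h1 j hj
        simp [frm, h2]
  have hdisj1 : ∀ l, Disjoint (I.image c0) (A l) := by
    intro l
    rw [Finset.disjoint_left]
    intro t ht ht'
    rw [hA] at ht'
    rw [hc0] at ht
    simp only [Finset.mem_image] at ht ht'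
    obtain ⟨j, hj, hj1⟩ := ht
    obtain ⟨j', hj', hj1'⟩ := ht'
    have := (hΦ 0 ⟨0, hM⟩ j 1 l j' (by rw [hj1, hj1'])).1
    exact absurd this (by decide)
  have hdisj2 : ∀ l l1, l ≠ l1 → Disjoint (A l) (A l1) := by
    intro l l1 hl
    rw [Finset.disjoint_left]
    intro t ht ht'
    rw [hA] at ht' ht
    simp only [Finset.mem_image] at ht ht'
    obtain ⟨j, hj, hj1⟩ := ht
    obtain ⟨j', hj', hj1'⟩ := ht'
    exact hl (hΦ 1 l j 1 l1 j' (by rw [hj1, hj1'])).2.1
  have hcI : (I.image c0).card ≤ β := (Finset.card_image_le).trans hI.le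
  have hcA : ∀ l, (A l).card ≤ k - β := by
    intro l
    rw [hA]
    refine (Finset.card_image_le).trans ?_
    rw [Finset.card_sdiff_of_subset (Finset.subset_univ I), hI]
    simp
  have hcard : ∀ l l1, (I.image c0 ∪ A l ∪ A l1).card ≤ 2 * k := by
    intro l l1
    have e1 := Finset.card_union_le (I.image c0 ∪ A l) (A l1)
    have e2 := Finset.card_union_le (I.image c0) (A l)
    have e3 := hcA l
    have e4 := hcA l1
    omega
  obtain ⟨g, hg⟩ : ∃ g : Fin N → ℝ, g = fun i => d i - avg (cell x (I.image c0) (x i)) d :=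
    ⟨_, rfl⟩
  have hd01 : ∀ i, 0 ≤ d i ∧ d i ≤ 1 := by
    intro i
    rw [hd]
    unfold ind
    split_ifs
    · exact ⟨zero_le_one, le_refl 1⟩
    · exact ⟨le_refl 0, zero_le_one⟩
  have hg1 : ∀ i, |g i| ≤ 1 := by
    intro i
    have e1 := hd01 i
    have e2 := avg_unit (cell x (I.image c0) (x i)) d hd01
    rw [hg, abs_le]
    constructor
    · show -1 ≤ d i - avg (cell x (I.image c0) (x i)) d
      linarith [e1.1, e2.2]
    · show d i - avg (cell x (I.image c0) (x i)) d ≤ 1
      linarith [e1.2, e2.1]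
  have hg0 : ∀ a : Pt T D, ∑ i ∈ cell x (I.image c0) a, g i = 0 := by
    intro a
    rw [← sum_sub_avg (cell x (I.image c0) a) d]
    refine Finset.sum_congr rfl (fun i hi => ?_)
    rw [hg]
    show d i - avg (cell x (I.image c0) (x i)) d = _
    rw [cell_eq x _ a i hi]
  -- the set in the statement
  have hset : (univ.filter (fun l : Fin M => ∃ F : Pt T D → ℝ,
      PF β ∅ (univ.image (frm hM Φ part l l')) F ∧
      γ < |avg univ (fun i => (ind s (fun q U => lab q (U.image (frm hM Φ part l l'))) q I ϑ i -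
        avg (cell x (I.image (frm hM Φ part l l')) (x i))
          (ind s (fun q U => lab q (U.image (frm hM Φ part l l'))) q I ϑ)) * F (x i))|)) =
      univ.filter (fun l : Fin M => ∃ F : Pt T D → ℝ, PF β ∅ (I.image c0 ∪ A l) F ∧
        γ < |avg univ (fun i => g i * F (x i))|) := by
    refine Finset.filter_congr (fun l _ => ?_)
    rw [hind l, hI' l, huniv l, hg]
  rw [hset]
  obtain ⟨S, hS⟩ : ∃ S : Finset (Fin M), S = univ.filter (fun l : Fin M => ∃ F : Pt T D → ℝ,
      PF β ∅ (I.image c0 ∪ A l) F ∧ γ < |avg univ (fun i => g i * F (x i))|) := ⟨_, rfl⟩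
  rw [← hS]
  rcases Nat.eq_zero_or_pos S.card with hv | hv
  · rw [hv]
    simp only [Nat.cast_zero]
    positivity
  have hmem : ∀ l : S, ∃ F : Pt T D → ℝ, PF β ∅ (I.image c0 ∪ A l.1) F ∧
      γ < |avg univ (fun i => g i * F (x i))| := by
    rintro ⟨l, hl⟩
    rw [hS, Finset.mem_filter] at hl
    exact hl.2
  choose F hF1 hF2 using hmem
  have e := S.equivFin.symm
  have key := h β (2 * k) S.card T D N η x hv hη hN hPR (I.image c0) g hcI hg1 hg0
    (fun v => A (e v).1) (fun v => F (e v)) (fun v => hdisj1 _)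
    (fun v v' hvv => hdisj2 _ _ (fun hh => hvv (e.injective (Subtype.ext hh))))
    (fun v v' => hcard _ _) (fun v => hF1 _)
  have hlow : (S.card : ℝ) * γ ≤ ∑ v : Fin S.card, |avg univ (fun i => g i * F (e v) (x i))| := by
    calc (S.card : ℝ) * γ = ∑ v : Fin S.card, γ := by simp
      _ ≤ _ := Finset.sum_le_sum (fun v _ => (hF2 (e v)).le)
  have hv' : (0 : ℝ) < S.card := by exact_mod_cast hv
  have h3 : γ ≤ √(4 / (S.card : ℝ) + 4 * η) := le_of_mul_le_mul_left (hlow.trans key) hv'
  have h4 : γ ^ 2 ≤ 4 / (S.card : ℝ) + 4 * η := by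
    have h5 : 0 ≤ 4 / (S.card : ℝ) + 4 * η := by positivity
    calc γ ^ 2 ≤ (√(4 / (S.card : ℝ) + 4 * η)) ^ 2 := by
          exact pow_le_pow_left₀ hγ.le h3 2
      _ = _ := Real.sq_sqrt h5
  have h6 : γ ^ 2 / 2 ≤ 4 / (S.card : ℝ) := by linarith
  rw [le_div_iff₀ (by positivity)]
  rw [le_div_iff₀ hv'] at h6
  linarith

end Pool.Agent.Helper29.PU
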