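import Pool.Agent.Helper34.PU.Goals

/-!
MP_8060f4_co, packet RCOV : from weighted processes to a real cover.
-/

set_option autoImplicit false

open Finset Function
open scoped Classical

namespace Pool.Agent.Helper29.PU

open Pool.Agent.Helper34.PU

theorem idx_lt {V : Type} {l : List V} (hl : l.Nodup) {a b : V} (h : [a, b].Sublist l) :
    l.idxOf a < l.idxOf b := by
  rw [List.cons_sublist_iff] at h
  obtain ⟨r1, r2, rfl, ha, hb⟩ := h
  have hb2 : b ∈ r2 := by simpa using hb
  have hb1 : b ∉ r1 := by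
    intro hb1
    exact (List.disjoint_of_nodup_append hl) hb1 hb2
  rw [List.idxOf_append_of_mem ha, List.idxOf_append_of_notMem hb1]
  have := List.idxOf_lt_length_of_mem ha
  omega

theorem walk_to {V : Type} {H : SimpleGraph V} {θ : ℝ} {u : V} {ℓ : ℕ} {R : RF V}
    (hC : Core H θ {u} ℓ R) (ω : R.Ω) :
    ∀ (n : ℕ) (b : V), b ∈ R.F ω → (R.F ω).idxOf b = n → ∃ p : H.Walk u b, p.length ≤ n + 1 := by
  intro n
  induction n using Nat.strong_induction_on with
  | _ n ih =>
    intro b hb hn
    obtain ⟨a, hab, ha⟩ := hC.link ω b hb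
    rcases ha with ha | ha
    · rw [Finset.mem_singleton] at ha
      subst ha
      exact ⟨SimpleGraph.Walk.cons hab SimpleGraph.Walk.nil, by simp⟩
    · have hlt := idx_lt (hC.nodup ω) ha
      have haF : a ∈ R.F ω := ha.subset (by simp)
      obtain ⟨p, hp⟩ := ih ((R.F ω).idxOf a) (by omega) a haF rfl
      refine ⟨p.concat hab, ?_⟩
      rw [SimpleGraph.Walk.length_concat]
      omega

theorem walk_le {V : Type} {H : SimpleGraph V} {θ : ℝ} {u : V} {ℓ : ℕ} {R : RF V}
    (hC : Core H θ {u} ℓ R) (ω : R.Ω) (b : V) (hb : b ∈ insert u (R.F ω).toFinset) :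
    ∃ p : H.Walk u b, p.length ≤ ℓ := by
  rw [Finset.mem_insert, List.mem_toFinset] at hb
  rcases hb with rfl | hb
  · exact ⟨SimpleGraph.Walk.nil, by simp⟩
  · obtain ⟨p, hp⟩ := walk_to hC ω _ b hb rfl
    have h1 := List.idxOf_lt_length_of_mem hb
    have h2 := hC.len ω
    exact ⟨p, by omega⟩

theorem vertex_sum {V : Type} (M : V → RF V) (μ : V → ℝ) (u v : V) :
    (∑ ω : (M u).Ω, if v ∈ insert u ((M u).F ω).toFinset then μ u * (M u).w ω else 0) =
      μ u * inX M u v := by
  unfold inX
  by_cases h : v = u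
  · subst h
    simp only [Finset.mem_insert, true_or, if_true]
    rw [← Finset.mul_sum, (M v).w_sum]
  · rw [if_neg h]
    unfold RF.In
    rw [Finset.mul_sum]
    refine Finset.sum_congr rfl (fun ω _ => ?_)
    by_cases h2 : v ∈ (M u).F ω
    · rw [if_pos h2, if_pos (by simp [h2])]
    · rw [if_neg h2, if_neg (by simp [h, h2]), mul_zero]

theorem pair_split {V : Type} {l : List V} (hl : l.Nodup) {a b : V} (hab : a ≠ b) (x : ℝ) :
    (if a ∈ l ∧ b ∈ l then x else 0) =
      (if [a, b].Sublist l then x else 0) + (if [b, a].Sublist l then x else 0) := by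
  by_cases h1 : [a, b].Sublist l
  · have h2 : ¬ [b, a].Sublist l := by
      intro h2
      have := idx_lt hl h1
      have := idx_lt hl h2
      omega
    have h3 : a ∈ l ∧ b ∈ l := ⟨h1.subset (by simp), h1.subset (by simp)⟩
    rw [if_pos h1, if_neg h2, if_pos h3, add_zero]
  · by_cases h2 : [b, a].Sublist l
    · have h3 : a ∈ l ∧ b ∈ l := ⟨h2.subset (by simp), h2.subset (by simp)⟩
      rw [if_neg h1, if_pos h2, if_pos h3, zero_add]
    · have h3 : ¬ (a ∈ l ∧ b ∈ l) := by
        rintro ⟨ha, hb⟩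
        obtain ⟨s, t, rfl⟩ := List.append_of_mem ha
        rw [List.mem_append, List.mem_cons] at hb
        rcases hb with hb | hb | hb
        · apply h2
          have e1 : [b].Sublist s := List.singleton_sublist.2 hb
          have e2 : [a].Sublist (a :: t) := List.singleton_sublist.2 (by simp)
          exact e1.append e2
        · exact hab hb.symm
        · apply h1
          have e1 : [b].Sublist t := List.singleton_sublist.2 hb
          have e2 : [a, b].Sublist (a :: t) := e1.cons_cons a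
          exact e2.trans (List.sublist_append_right s (a :: t))
      rw [if_neg h1, if_neg h2, if_neg h3, add_zero]

theorem edge_sum {V : Type} (M : V → RF V) (μ : V → ℝ) (u a b : V) (hab : a ≠ b)
    (hn : ∀ ω, ((M u).F ω).Nodup) :
    (∑ ω : (M u).Ω, if a ∈ insert u ((M u).F ω).toFinset ∧ b ∈ insert u ((M u).F ω).toFinset
      then μ u * (M u).w ω else 0) = μ u * covX M u a b := by
  unfold covX
  by_cases h : a = u
  · subst h
    rw [if_pos rfl]
    unfold RF.In
    rw [Finset.mul_sum]
    refine Finset.sum_congr rfl (fun ω _ => ?_)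
    by_cases h2 : b ∈ (M a).F ω
    · rw [if_pos h2, if_pos (by simp [h2])]
    · rw [if_neg h2, if_neg (by simp [h2, hab.symm]), mul_zero]
  · rw [if_neg h]
    by_cases h' : b = u
    · subst h'
      rw [if_pos rfl]
      unfold RF.In
      rw [Finset.mul_sum]
      refine Finset.sum_congr rfl (fun ω _ => ?_)
      by_cases h2 : a ∈ (M b).F ω
      · rw [if_pos h2, if_pos (by simp [h2])]
      · rw [if_neg h2, if_neg (by simp [h2, hab]), mul_zero]
    · rw [if_neg h']
      unfold RF.Bef
      rw [← Finset.sum_add_distrib, Finset.mul_sum]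
      refine Finset.sum_congr rfl (fun ω _ => ?_)
      rw [← pair_split (hn ω) hab]
      by_cases h2 : a ∈ (M u).F ω ∧ b ∈ (M u).F ω
      · rw [if_pos h2, if_pos (by simp [h2.1, h2.2])]
      · rw [if_neg h2, if_neg (by simpa [h, h'] using h2), mul_zero]

theorem rcov (h : WeightStmt) : RCovStmt := by
  intro Δ θ hΔ hθ hθ1 η hη
  obtain ⟨J, hJ⟩ := h Δ θ hΔ hθ hθ1 η hη
  refine ⟨4 * J + 6, ?_⟩
  intro V _ H hH
  obtain ⟨M, μ, hC, hμ, hv, he⟩ := hJ V H hH
  refine ⟨(Σ u : V, (M u).Ω), inferInstance, fun x => μ x.1 * (M x.1).w x.2,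
    fun x => insert x.1 ((M x.1).F x.2).toFinset, ?_, ?_, ?_, ?_, ?_⟩
  · rintro ⟨u, ω⟩
    exact mul_nonneg (hμ u) ((M u).w_nonneg ω)
  · rintro ⟨u, ω⟩
    have h1 := Finset.card_insert_le u ((M u).F ω).toFinset
    have h2 := List.toFinset_card_le ((M u).F ω)
    have h3 := (hC u).len ω
    show (insert u ((M u).F ω).toFinset).card ≤ 4 * J + 6
    omega
  · rintro ⟨u, ω⟩ a ha b hb
    obtain ⟨p, hp⟩ := walk_le (hC u) ω a ha
    obtain ⟨q, hq⟩ := walk_le (hC u) ω b hb
    refine ⟨p.reverse.append q, ?_⟩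
    rw [SimpleGraph.Walk.length_append, SimpleGraph.Walk.length_reverse]
    omega
  · intro v
    rw [Fintype.sum_sigma, ← hv v]
    exact Finset.sum_congr rfl (fun u _ => vertex_sum M μ u v)
  · intro a b hab
    have key : (∑ ω : (Σ u : V, (M u).Ω), if a ∈ insert ω.1 ((M ω.1).F ω.2).toFinset ∧
        b ∈ insert ω.1 ((M ω.1).F ω.2).toFinset then μ ω.1 * (M ω.1).w ω.2 else 0) =
        ∑ u, μ u * covX M u a b := by
      rw [Fintype.sum_sigma]
      exact Finset.sum_congr rfl (fun u _ => edge_sum M μ u a b hab.ne (hC u).nodup)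
    have h1 := he a b hab
    constructor
    · exact h1.1.trans (le_of_eq key.symm)
    · exact (le_of_eq key).trans h1.2

end Pool.Agent.Helper29.PU
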